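import Pool.Agent.Helper89.GW.Stmts

/-!
# MP_897da6_gt, module HHF: the profile functions
-/

set_option autoImplicit false

open scoped ContDiff Topology
open Set Filter

namespace GW

theorem hhf_smooth : ContDiff ℝ ∞ hh := by
  have h1 : ContDiff ℝ ∞ (fun u : ℝ => Real.smoothTransition (4 * u - 3)) :=
    Real.smoothTransition.contDiff.comp (by fun_prop)
  have h2 : ContDiff ℝ ∞ (fun u : ℝ => u - 1 / 2) := by fun_prop
  have h3 : ContDiff ℝ ∞ (fun u : ℝ => 3 / 2 - u) := by fun_prop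
  exact h2.add (h3.mul h1)

theorem hhf_low (u : ℝ) (hu : u ≤ 3 / 4) : hh u = u - 1 / 2 := by
  unfold hh
  rw [Real.smoothTransition.zero_of_nonpos (by linarith), mul_zero, add_zero]

theorem hhf_high (u : ℝ) (hu : 1 ≤ u) : hh u = 1 := by
  unfold hh
  rw [Real.smoothTransition.one_of_one_le (by linarith)]
  ring

theorem hhf_pos (u : ℝ) (hu : 1 / 2 < u) : 0 < hh u := by
  unfold hh
  have h0 := Real.smoothTransition.nonneg (4 * u - 3)
  have h1 := Real.smoothTransition.le_one (4 * u - 3)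
  set T := Real.smoothTransition (4 * u - 3)
  have e : u - 1 / 2 + (3 / 2 - u) * T = (u - 1 / 2) * (1 - T) + T := by ring
  rw [e]
  rcases h0.eq_or_lt with h | h
  · rw [← h]
    linarith
  · have : 0 ≤ (u - 1 / 2) * (1 - T) := mul_nonneg (by linarith) (by linarith)
    linarith

theorem hhf_le (u : ℝ) : hh u ≤ 1 := by
  rcases le_total 1 u with h | h
  · rw [hhf_high u h]
  · unfold hh
    have h0 := Real.smoothTransition.nonneg (4 * u - 3)
    have h1 := Real.smoothTransition.le_one (4 * u - 3)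
    set T := Real.smoothTransition (4 * u - 3)
    nlinarith

theorem hhf_cont : Continuous (fun u : ℝ => Real.sqrt (hh u)) :=
  Real.continuous_sqrt.comp hhf_smooth.continuous

theorem hhf_int (a b : ℝ) : IntervalIntegrable (fun u : ℝ => Real.sqrt (hh u))
    MeasureTheory.volume a b := hhf_cont.intervalIntegrable a b

theorem hhf_deriv (u : ℝ) : HasDerivAt gg (Real.sqrt (hh u)) u :=
  intervalIntegral.integral_hasDerivAt_right (hhf_int _ _)
    hhf_cont.stronglyMeasurable.stronglyMeasurableAtFilter hhf_cont.continuousAt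

theorem hhf_gg1_pos : 0 < gg 1 := by
  unfold gg
  refine intervalIntegral.intervalIntegral_pos_of_pos_on (hhf_int _ _) ?_ (by norm_num)
  intro x hx
  exact Real.sqrt_pos.mpr (hhf_pos x hx.1)

theorem hhf_gg1_lt : gg 1 < 1 := by
  have h1 : gg 1 ≤ ∫ _r in (1 / 2 : ℝ)..1, (1 : ℝ) := by
    unfold gg
    refine intervalIntegral.integral_mono_on (by norm_num) (hhf_int _ _)
      (continuous_const.intervalIntegrable _ _) ?_
    intro x _
    exact Real.sqrt_le_one.mpr (hhf_le x)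
  rw [intervalIntegral.integral_const, smul_eq_mul, mul_one] at h1
  linarith

theorem hhf_gg_high (u : ℝ) (hu : 1 ≤ u) : gg u = gg 1 + (u - 1) := by
  unfold gg
  rw [← intervalIntegral.integral_add_adjacent_intervals (hhf_int (1 / 2) 1) (hhf_int 1 u)]
  congr 1
  have h1 : ∫ r in (1 : ℝ)..u, Real.sqrt (hh r) = ∫ _r in (1 : ℝ)..u, (1 : ℝ) := by
    refine intervalIntegral.integral_congr ?_
    intro x hx
    rw [uIcc_of_le hu] at hx
    change Real.sqrt (hh x) = 1
    rw [hhf_high x hx.1, Real.sqrt_one]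
  rw [h1, intervalIntegral.integral_const, smul_eq_mul, mul_one]

theorem hhf_gg_low (s : ℝ) (h0 : 0 ≤ s) (h1 : s ≤ 1 / 2) :
    gg (1 / 2 + s ^ 2) = 2 / 3 * s ^ 3 := by
  unfold gg
  have h2 : s ^ 2 ≤ 1 / 4 := by nlinarith
  have e1 : ∫ r in (1 / 2 : ℝ)..(1 / 2 + s ^ 2), Real.sqrt (hh r) =
      ∫ r in (1 / 2 : ℝ)..(1 / 2 + s ^ 2), (r - 1 / 2) ^ (1 / 2 : ℝ) := by
    refine intervalIntegral.integral_congr ?_
    intro x hx
    rw [uIcc_of_le (by linarith [sq_nonneg s])] at hx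
    change Real.sqrt (hh x) = (x - 1 / 2) ^ (1 / 2 : ℝ)
    rw [hhf_low x (by linarith [hx.2]), Real.sqrt_eq_rpow]
  rw [e1, intervalIntegral.integral_comp_sub_right (fun r : ℝ => r ^ (1 / 2 : ℝ)) (1 / 2),
    integral_rpow (Or.inl (by norm_num))]
  have e2 : (1 / 2 + s ^ 2 - 1 / 2 : ℝ) = s ^ (2 : ℝ) := by
    rw [Real.rpow_two]
    ring
  rw [sub_self, e2, ← Real.rpow_mul h0, Real.zero_rpow (by norm_num)]
  have e3 : (2 : ℝ) * (1 / 2 + 1) = ((3 : ℕ) : ℝ) := by norm_num
  rw [e3, Real.rpow_natCast]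
  ring

theorem hhf_gg_smooth : ContDiffOn ℝ ∞ gg (Ioi (1 / 2)) := by
  rw [contDiffOn_infty_iff_deriv_of_isOpen isOpen_Ioi]
  refine ⟨fun u _ => (hhf_deriv u).differentiableAt.differentiableWithinAt, ?_⟩
  have h1 : ContDiffOn ℝ ∞ (fun u : ℝ => Real.sqrt (hh u)) (Ioi (1 / 2)) :=
    hhf_smooth.contDiffOn.sqrt (fun u hu => (hhf_pos u hu).ne')
  exact h1.congr (fun u _ => (hhf_deriv u).deriv)

theorem st_HHF : ST_HHF := by
  refine ⟨hhf_smooth, hhf_low, hhf_high, hhf_pos, hhf_le, hhf_gg1_pos, hhf_gg1_lt, hhf_gg_high,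
    hhf_gg_low, hhf_gg_smooth, fun u _ => hhf_deriv u, ?_, ?_⟩
  · unfold kk ee
    have := hhf_gg1_lt
    linarith
  · unfold kk ee
    have := hhf_gg1_pos
    linarith

end GW
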